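import Pool.Agent.Helper95.PM.Stmts
import Pool.Agent.Helper64.PW.SHL

/-!
# The main inequality in a shell, molecules
-/

set_option autoImplicit false

namespace Pool.Agent.Helper95.PW

open MeasureTheory Filter

theorem SHLM_ind_nonneg (S : Set R3) (y : R3) : 0 ≤ ind S y := by
  unfold ind
  exact Set.indicator_nonneg (fun _ _ => zero_le_one) y

theorem SHLM_ind_le (S : Set R3) (y : R3) : ind S y ≤ 1 := by
  unfold ind
  exact Set.indicator_le_self' (fun _ _ => zero_le_one) y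

theorem SHLM_ind_meas {S : Set R3} (hS : IsClosed S) : Measurable (ind S) := by
  unfold ind
  exact measurable_const.indicator hS.measurableSet

theorem SHLM_pot_nonneg {M : ℕ} {X : Fin M → R3} {Z : Fin M → ℝ} (hZ : ∀ j, 0 ≤ Z j) (y : R3) :
    0 ≤ pot X Z y :=
  Finset.sum_nonneg (fun j _ => div_nonneg (hZ j) (shl_nr_nonneg _))

theorem SHLM_pot_meas {M : ℕ} (X : Fin M → R3) (Z : Fin M → ℝ) : Measurable (pot X Z) := by
  unfold pot
  refine Finset.measurable_sum _ (fun j _ => ?_)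
  exact measurable_const.div (shl_nr_cont.measurable.comp (measurable_id.sub measurable_const))

/-- `H u - E u` is in `L^2` -/
theorem SHLM_f (hINT : ST_INTM) {n M : ℕ} (X : Fin M → R3) (Z : Fin M → ℝ) (E : ℝ) {v : Cf n → ℝ}
    (hv : ContDiff ℝ (⊤ : ℕ∞) v) (hc : HasCompactSupport v) :
    AEStronglyMeasurable (fun x => hmM X Z v x - E * v x) volume ∧
    Integrable (fun x => (hmM X Z v x - E * v x) ^ 2) := by
  obtain ⟨_, _, h3, h4⟩ := hINT n M X Z v v hv hc hv hc
  have hL : Continuous (fun x => ∑ k, ∑ i, dv k i (dv k i v) x) :=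
    continuous_finsetSum _ (fun k _ => continuous_finsetSum _ (fun i _ =>
      (shl_dv_cd k i (shl_dv_cd k i hv)).continuous))
  have hattm : Measurable (fun x : Cf n => ∑ k, pot X Z (x k)) :=
    Finset.measurable_sum _ (fun k _ => (SHLM_pot_meas X Z).comp (measurable_pi_apply k))
  have hrepm : Measurable (rep (n := n)) := by
    unfold rep
    refine Finset.measurable_sum _ (fun k _ => Finset.measurable_sum _ (fun l _ => ?_))
    split_ifs
    · exact measurable_const.div (shl_nr_cont.measurable.comp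
        ((measurable_pi_apply k).sub (measurable_pi_apply l)))
    · exact measurable_const
  have hmeas : Measurable (fun x => hmM X Z v x - E * v x) := by
    unfold hmM
    exact ((hL.measurable.neg).add ((hrepm.sub hattm).mul
      hv.continuous.measurable)).sub (hv.continuous.measurable.const_mul E)
  refine ⟨hmeas.aestronglyMeasurable, ?_⟩
  have hLc : HasCompactSupport (fun x => ∑ k, ∑ i, dv k i (dv k i v) x) := by
    refine HasCompactSupport.intro hc (fun x hx => ?_)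
    have h0 : v =ᶠ[nhds x] 0 := notMem_tsupport_iff_eventuallyEq.1 hx
    refine Finset.sum_eq_zero (fun k _ => Finset.sum_eq_zero (fun i _ => ?_))
    exact (shl_dv_ev k i (shl_dv_ev k i h0)).eq_of_nhds
  have hL2 := shl_sqint hL hLc
  have hv2 := shl_sqint hv.continuous hc
  refine Integrable.mono' (((hL2.const_mul 4).add (h4.const_mul 4)).add
    ((h3.const_mul 4).add (hv2.const_mul (4 * E ^ 2))))
    (hmeas.pow_const 2).aestronglyMeasurable ?_
  refine Filter.Eventually.of_forall (fun x => ?_)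
  simp only [Pi.add_apply]
  rw [Real.norm_of_nonneg (sq_nonneg _)]
  unfold hmM
  generalize (∑ k, ∑ i, dv k i (dv k i v) x) = L
  generalize hr : rep x * v x = r
  generalize ha : (∑ k, pot X Z (x k)) * v x = a
  have e : -L + (rep x - ∑ k, pot X Z (x k)) * v x - E * v x = -L + r - a - E * v x := by
    rw [← hr, ← ha]
    ring
  rw [e]
  nlinarith [sq_nonneg (-L - r), sq_nonneg (-L + a), sq_nonneg (-L + E * v x),
    sq_nonneg (r + a), sq_nonneg (r + E * v x), sq_nonneg (a - E * v x)]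

theorem SHLM_ind_one {n : ℕ} (S : Set R3) {u : Wf n} (hu : Sm u) : one (ind S) u ≤ n * sq u := by
  unfold one sq
  rw [Finset.mul_sum]
  refine Finset.sum_le_sum (fun s _ => ?_)
  rw [← integral_const_mul]
  refine integral_mono_of_nonneg (Filter.Eventually.of_forall (fun x => ?_))
    ((shl_sqint (hu s).1.continuous (hu s).2).const_mul _)
    (Filter.Eventually.of_forall (fun x => ?_))
  · exact mul_nonneg (Finset.sum_nonneg (fun k _ => SHLM_ind_nonneg S _)) (sq_nonneg _)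
  · refine mul_le_mul_of_nonneg_right ?_ (sq_nonneg _)
    calc ∑ k, ind S (x k) ≤ ∑ _k : Fin n, (1 : ℝ) :=
          Finset.sum_le_sum (fun k _ => SHLM_ind_le S _)
      _ = n := by simp

theorem SHLM_grd_le {g : R3 → ℝ} {K r : ℝ} {S : Set R3} (hg : Scale g K r)
    (hgS : ∀ y, y ∉ S → ∀ i, pd i g y = 0) (y : R3) : grd g y ≤ 3 * K ^ 2 * ind S y := by
  by_cases hy : y ∈ S
  · have hb : ind S y = 1 := by
      unfold ind
      rw [Set.indicator_of_mem hy]
    rw [hb, mul_one]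
    unfold grd
    have h1 : ∀ i, pd i g y ^ 2 ≤ K ^ 2 := fun i => by
      rw [← sq_abs]
      exact pow_le_pow_left₀ (abs_nonneg _) (hg.d1 i y) 2
    rw [Fin.sum_univ_three]
    linarith [h1 0, h1 1, h1 2]
  · have h2 : grd g y = 0 := by
      unfold grd
      exact Finset.sum_eq_zero (fun i _ => by rw [hgS y hy i]; ring)
    rw [h2]
    exact mul_nonneg (by positivity) (SHLM_ind_nonneg S y)

theorem SHLM_grd_one {n : ℕ} {g : R3 → ℝ} {K r : ℝ} {S : Set R3} (hS : IsClosed S)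
    (hg : Scale g K r) (hgS : ∀ y, y ∉ S → ∀ i, pd i g y = 0) {u : Wf n} (hu : Sm u) :
    one (grd g) u ≤ 3 * K ^ 2 * one (ind S) u := by
  unfold one
  rw [Finset.mul_sum]
  refine Finset.sum_le_sum (fun s _ => ?_)
  rw [← integral_const_mul]
  have hint : Integrable (fun x : Cf n => (∑ k, ind S (x k)) * u s x ^ 2) := by
    have h2 := shl_sqint (hu s).1.continuous (hu s).2
    refine Integrable.mono' (h2.const_mul n) ?_ (Filter.Eventually.of_forall (fun x => ?_))
    · refine Measurable.aestronglyMeasurable ?_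
      refine Measurable.mul (Finset.measurable_sum _ (fun k _ => ?_))
        ((hu s).1.continuous.measurable.pow_const 2)
      exact (SHLM_ind_meas hS).comp (measurable_pi_apply k)
    · rw [Real.norm_of_nonneg (mul_nonneg (Finset.sum_nonneg (fun k _ => SHLM_ind_nonneg S _))
        (sq_nonneg _))]
      refine mul_le_mul_of_nonneg_right ?_ (sq_nonneg _)
      calc ∑ k, ind S (x k) ≤ ∑ _k : Fin n, (1 : ℝ) :=
            Finset.sum_le_sum (fun k _ => SHLM_ind_le S _)
        _ = n := by simp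
  refine integral_mono_of_nonneg (Filter.Eventually.of_forall (fun x => ?_))
    (hint.const_mul _) (Filter.Eventually.of_forall (fun x => ?_))
  · refine mul_nonneg (Finset.sum_nonneg (fun k _ => ?_)) (sq_nonneg _)
    unfold grd
    exact Finset.sum_nonneg (fun i _ => sq_nonneg _)
  · simp only []
    rw [← mul_assoc]
    refine mul_le_mul_of_nonneg_right ?_ (sq_nonneg _)
    rw [Finset.mul_sum]
    exact Finset.sum_le_sum (fun k _ => SHLM_grd_le hg hgS _)

theorem st_SHLM (hCSQ : ST_CSQM) (hSTB : ST_STB) (hAID : ST_AIDM) (hCID : ST_CIDM)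
    (hBID : ST_BIDM) (hERR : ST_ERR) (hINT : ST_INTM) : ST_SHLM := by
  obtain ⟨CB, hCB, hB⟩ := hBID
  refine ⟨3 * CB, by positivity, ?_⟩
  intro n M X Z E g K r B S hLow hZ hg hr hS hgS hgr
  obtain ⟨CE, hCE, hErr⟩ := hERR n g hg.sm hg.cs
  have hM0 : 0 ≤ |B| := abs_nonneg B
  have hn0 : (0 : ℝ) ≤ n := Nat.cast_nonneg n
  obtain ⟨A, hA⟩ : ∃ A : ℝ, A = Real.sqrt (CE * (3 * |B| + 2)) := ⟨_, rfl⟩
  have hA0 : 0 ≤ A := by rw [hA]; exact Real.sqrt_nonneg _
  obtain ⟨Nm, hNm⟩ : ∃ Nm : ℝ, Nm = 3 * K ^ 2 * (2 * n) := ⟨_, rfl⟩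
  have hNm0 : 0 ≤ Nm := by rw [hNm]; positivity
  obtain ⟨Bm, hBm⟩ : ∃ Bm : ℝ, Bm = CB * K ^ 2 * ((|B| + |B| + |B|) / r ^ 2 +
    (2 * n) / r ^ 4) := ⟨_, rfl⟩
  have hBm0 : 0 ≤ Bm := by rw [hBm]; positivity
  obtain ⟨pm, hpm⟩ : ∃ pm : ℝ, pm = CE * (|B| + 2) := ⟨_, rfl⟩
  have hpm0 : 0 ≤ pm := by rw [hpm]; positivity
  refine ⟨A * Bm + Nm * A + A * A + 4 * pm * A + 1, by positivity, ?_⟩
  intro u hu ha hsq hkin hpair hone hdd hres
  have hMM : B ≤ |B| := le_abs_self B
  obtain ⟨hF, hP, hFP⟩ := hSTB n g u hg.sm hu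
  obtain ⟨hFa, hPa⟩ := hFP ha
  obtain ⟨hFF, _, _⟩ := hSTB n g _ hg.sm hF
  obtain ⟨hFPs, hPP, _⟩ := hSTB n g _ hg.sm hP
  obtain ⟨e1, e2, e3, e4⟩ := hErr u hu
  have hkin0 := shl_kin_nonneg u
  have hsq0 := shl_sq_nonneg u
  have hdd0 := shl_dd_nonneg u
  have hpair0 := shl_pair_nonneg u
  have hone0 : 0 ≤ one (pot X Z) u := shl_one_nonneg _ (SHLM_pot_nonneg hZ) u
  have hball0 : 0 ≤ one (ind S) u := shl_one_nonneg _ (SHLM_ind_nonneg S) u
  have hball1 : one (ind S) u ≤ 2 * n := by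
    have := SHLM_ind_one S hu
    nlinarith
  have hf := fun s => SHLM_f hINT X Z E (hu s).1 (hu s).2
  have hcs : ∀ w : Wf n, Sm w → sq w ≤ CE * (3 * |B| + 2) →
      |∑ s, ∫ x, w s x * (hmM X Z (u s) x - E * u s x)| ≤ A * Real.sqrt (resM X Z E u) := by
    intro w hw hwb
    have h1 := shl_cs w (fun s x => hmM X Z (u s) x - E * u s x) (fun s => (hw s).1.continuous)
      (fun s => (hw s).2) (fun s => (hf s).1) (fun s => (hf s).2)
    refine h1.trans ?_
    refine mul_le_mul_of_nonneg_right ?_ (Real.sqrt_nonneg _)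
    rw [hA]
    exact Real.sqrt_le_sqrt hwb
  have ba := hcs _ hFF (by nlinarith)
  have be := hcs _ hFPs (by nlinarith)
  have bb := hcs _ hPP (by nlinarith)
  have i1 := hAID n M X Z E g u hg.sm hu
  have i2 := hCID n M X Z E g u hg.sm hu
  have i3 := hB n M X Z E g K r S u hZ hg hr hS hgS hgr hu
  have i4 := hCSQ n M X Z E _ _ hLow hF hFa hP hPa
  have i5 := hLow _ hF hFa
  have i6 := SHLM_grd_one hS hg hgS hu
  have hN0 : 0 ≤ one (grd g) u := shl_one_nonneg _ (fun y => by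
    unfold grd
    exact Finset.sum_nonneg (fun i _ => sq_nonneg _)) u
  have hp0 : 0 ≤ sq (fun s => Pg g (u s)) := shl_sq_nonneg _
  have hp1 : sq (fun s => Pg g (u s)) ≤ pm := by
    rw [hpm]
    refine e2.trans (mul_le_mul_of_nonneg_left ?_ hCE.le)
    linarith
  obtain ⟨ρ, hρ⟩ : ∃ ρ : ℝ, ρ = Real.sqrt (resM X Z E u) := ⟨_, rfl⟩
  have hρ0 : 0 ≤ ρ := by rw [hρ]; exact Real.sqrt_nonneg _
  have hρ1 : ρ ≤ 1 := by
    rw [hρ]
    exact Real.sqrt_le_one.2 hres
  rw [← hρ] at ba be bb ⊢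
  obtain ⟨Xq, hX⟩ : ∃ Xq : ℝ, Xq = (kin u + pair u + one (pot X Z) u) / r ^ 2 +
      one (ind S) u / r ^ 4 := ⟨_, rfl⟩
  have hX0 : 0 ≤ Xq := by rw [hX]; positivity
  rw [← hX] at i3 ⊢
  have hXm : CB * K ^ 2 * Xq ≤ Bm := by
    rw [hBm, hX]
    refine mul_le_mul_of_nonneg_left ?_ (by positivity)
    gcongr <;> linarith
  generalize (∑ s, ∫ x, Fg g (Fg g (u s)) x * (hmM X Z (u s) x - E * u s x)) = a at ba i1
  generalize (∑ s, ∫ x, Fg g (Pg g (u s)) x * (hmM X Z (u s) x - E * u s x)) = e at be i2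
  generalize (∑ s, ∫ x, Pg g (Pg g (u s)) x * (hmM X Z (u s) x - E * u s x)) = b at bb i3
  rw [i1, i2] at i4
  have i5' : 0 ≤ a + one (grd g) u := by rw [← i1]; linarith
  generalize (QM X Z (fun s => Pg g (u s)) - E * sq (fun s => Pg g (u s))) = q2 at i3 i4
  generalize sq (fun s => Pg g (u s)) = p at *
  generalize one (grd g) u = N at *
  generalize one (ind S) u = NB at *
  have k1 : (e - 2 * p) ^ 2 ≤ (a + N) * (-b + CB * K ^ 2 * Xq) :=
    i4.trans (mul_le_mul_of_nonneg_left i3 i5')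
  have hBX0 : 0 ≤ CB * K ^ 2 * Xq := by positivity
  have hNle : N ≤ Nm := by
    rw [hNm]
    exact i6.trans (mul_le_mul_of_nonneg_left hball1 (by positivity))
  have habs_a := abs_nonneg a
  have habs_b := abs_nonneg b
  have habs_e := abs_nonneg e
  have k2 : N * |b| ≤ Nm * A * ρ := by
    calc N * |b| ≤ Nm * (A * ρ) := mul_le_mul hNle bb habs_b hNm0
      _ = Nm * A * ρ := by ring
  have k3 : |a| * (CB * K ^ 2 * Xq) ≤ A * Bm * ρ := by
    calc |a| * (CB * K ^ 2 * Xq) ≤ (A * ρ) * Bm := mul_le_mul ba hXm hBX0 (by positivity)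
      _ = A * Bm * ρ := by ring
  have k4 : |a| * |b| ≤ A * A * ρ := by
    calc |a| * |b| ≤ (A * ρ) * (A * ρ) := mul_le_mul ba bb habs_b (by positivity)
      _ = A * A * ρ * ρ := by ring
      _ ≤ A * A * ρ * 1 := mul_le_mul_of_nonneg_left hρ1 (by positivity)
      _ = A * A * ρ := by ring
  have k5 : 4 * p * |e| ≤ 4 * pm * A * ρ := by
    calc 4 * p * |e| ≤ (4 * pm) * (A * ρ) :=
          mul_le_mul (by linarith) be habs_e (by positivity)
      _ = 4 * pm * A * ρ := by ring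
  have k6 : N * (CB * K ^ 2 * Xq) ≤ 3 * CB * K ^ 4 * (NB * Xq) := by
    calc N * (CB * K ^ 2 * Xq) ≤ (3 * K ^ 2 * NB) * (CB * K ^ 2 * Xq) :=
          mul_le_mul_of_nonneg_right i6 hBX0
      _ = 3 * CB * K ^ 4 * (NB * Xq) := by ring
  have k7 : -(N * b) ≤ N * |b| := by nlinarith [neg_abs_le b]
  have k8 : a * (CB * K ^ 2 * Xq) ≤ |a| * (CB * K ^ 2 * Xq) :=
    mul_le_mul_of_nonneg_right (le_abs_self a) hBX0
  have k9 : -(a * b) ≤ |a| * |b| := by
    rw [← abs_mul]
    exact neg_le_of_neg_le (by linarith [neg_abs_le (a * b)])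
  have k10 : 4 * p * e ≤ 4 * p * |e| := mul_le_mul_of_nonneg_left (le_abs_self e) (by linarith)
  have k11 : 0 ≤ e ^ 2 := sq_nonneg e
  have k12 : (e - 2 * p) ^ 2 = e ^ 2 - 4 * p * e + 4 * p ^ 2 := by ring
  have k13 : (a + N) * (-b + CB * K ^ 2 * Xq) =
      -(a * b) + a * (CB * K ^ 2 * Xq) + -(N * b) + N * (CB * K ^ 2 * Xq) := by ring
  have k14 : (A * Bm + Nm * A + A * A + 4 * pm * A + 1) * ρ =
      A * Bm * ρ + Nm * A * ρ + A * A * ρ + 4 * pm * A * ρ + ρ := by ring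
  have k15 : 0 ≤ p ^ 2 := sq_nonneg p
  rw [k14]
  linarith

end Pool.Agent.Helper95.PW
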